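import Pool.Agent.Helper77.SUBK.SheetP
import Pool.Agent.Helper27.SUB.RM

/-!
Project SUBK, row RMM: the Roth machine over a number field (port of RM).
-/

set_option autoImplicit false

namespace Pool.Agent.Helper27.SUBK

open Finset Pool.Agent.Helper70.SUB Pool.Agent.Helper77.SUBK Pool.Agent.Helper27.SUB

/-- small combinations of small vectors -/
theorem comb_leM (hAV : ST_AV) {M : Type} [Field M] [NumberField M] {S : Finset ℕ} (P : PF S M)
    (k : ℕ) (hk : 1 ≤ k) (hS : ∀ p ∈ S, p.Prime)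
    (v : Option ℕ) (hv : v ∈ plc S) (A : Matrix (Fin (k + 1)) (Fin (k + 1)) M)
    (g : Fin k → Fin (k + 1) → ℤ) (i : Fin (k + 1)) (b : ℝ) (hb : 0 ≤ b)
    (hg : ∀ a, P.nv v (A.mulVec (cM (g a)) i) ≤ b) (a : ℕ) (ha : 1 ≤ a) (u : Fin k → ℕ)
    (hu : ∀ t, u t < a) :
    P.nv v (A.mulVec (cM (fun i => ∑ t, (u t : ℤ) * g t i)) i) ≤ (k * a : ℝ) * b := by
  have e1 : A.mulVec (cM (fun i => ∑ t, (u t : ℤ) * g t i)) i
      = ∑ t, ((u t : ℤ) : M) * (A.mulVec (cM (g t)) i) := by
    simp only [Matrix.mulVec, dotProduct, cM]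
    push_cast
    simp only [Finset.mul_sum]
    rw [Finset.sum_comm]
    refine Finset.sum_congr rfl fun t _ => Finset.sum_congr rfl fun x _ => ?_
    ring
  have ha0 : (0 : ℝ) ≤ a := Nat.cast_nonneg a
  have ha1 : (1 : ℝ) ≤ a := by exact_mod_cast ha
  have hk1 : (1 : ℝ) ≤ k := by exact_mod_cast hk
  have h1 : ∀ t ∈ (Finset.univ : Finset (Fin k)),
      P.nv v (((u t : ℤ) : M) * (A.mulVec (cM (g t)) i)) ≤ a * b := by
    intro t _
    rw [P.mul v hv]
    have h2 : P.nv v ((u t : ℤ) : M) ≤ a := by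
      rw [P.intCast hv]
      cases v with
      | none =>
        simp only [av]
        have : ((u t : ℕ) : ℝ) ≤ a := by exact_mod_cast (hu t).le
        push_cast
        rw [abs_of_nonneg (Nat.cast_nonneg _)]
        exact this
      | some p =>
        have hp : p ∈ S := of_mem_some hv
        exact ((hAV.2.2 S hS).2.2.2.2.1 p hp (u t)).trans ha1
    exact mul_le_mul h2 (hg t) (P.nn _ _) ha0
  rw [e1]
  refine (P.sum_bd hv Finset.univ _ (a * b) (by positivity) h1).trans ?_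
  rw [Finset.card_univ, Fintype.card_fin]
  split_ifs
  · exact le_of_eq (by ring)
  · nlinarith [mul_nonneg ha0 hb]

theorem RMM (hAV : ST_AV) (hROTH : ST_ROTH) (hVAN : ST_VANM) (hGRID : ST_GRID) (hRED : ST_RED2)
    (hHGT : ST_HGT) : ST_RMM := by
  intro K1 _ _ S PP k A c δ τ hk hS hA hc hδ hτ M Q g l hM hQ hyp
  obtain ⟨θ, ρ, m, hθ, hρ, hm, hV⟩ := hVAN K1 S PP (k + 1) A c δ (by omega) hS hA hc hδ
  obtain ⟨ω, hω, hR⟩ := hROTH m (θ / 2) hm (by positivity)
  have hk1 : (1 : ℝ) ≤ k := by exact_mod_cast hk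
  have hk0 : (0 : ℝ) < k := by linarith
  have hm1 : (1 : ℝ) ≤ m := by exact_mod_cast hm
  have hm0 : (0 : ℝ) < m := by linarith
  obtain ⟨a, ha1, ha2⟩ : ∃ a : ℕ, 1 ≤ a ∧ 2 * (m : ℝ) * k ≤ a * θ := by
    refine ⟨⌈2 * (m : ℝ) * k / θ⌉₊, Nat.ceil_pos.mpr (by positivity), ?_⟩
    have := Nat.le_ceil (2 * (m : ℝ) * k / θ)
    rwa [div_le_iff₀ hθ] at this
  have ha1r : (1 : ℝ) ≤ a := by exact_mod_cast ha1
  obtain ⟨C, hC1, hC⟩ := hV (k * a) (by nlinarith)
  have hlC : 0 ≤ Real.log C := Real.log_nonneg hC1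
  have hl2 : 0 < Real.log 2 := Real.log_pos (by norm_num)
  obtain ⟨T, hT1, hT2, hT3⟩ : ∃ T : ℝ, 1 ≤ T ∧ (1 + ρ) * k * Real.log 2 ≤ T * (ω * τ) ∧
      m * (1 + ρ) * k * Real.log C ≤ T * (ω * τ) := by
    refine ⟨max 1 (max ((1 + ρ) * k * Real.log 2 / (ω * τ)) (m * (1 + ρ) * k * Real.log C / (ω * τ))),
      le_max_left _ _, ?_, ?_⟩
    · rw [← div_le_iff₀ (by positivity)]
      exact (le_max_left _ _).trans (le_max_right _ _)
    · rw [← div_le_iff₀ (by positivity)]
      exact (le_max_right _ _).trans (le_max_right _ _)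
  obtain ⟨j, hj, hjj⟩ := exists_chain hM hQ (max C (Real.exp T)) ((1 + ρ) / ω) m
  have hQC : ∀ h, C ≤ Q (j h) := fun h => (le_max_left _ _).trans (hj h).2
  have hQT : ∀ h, T ≤ Real.log (Q (j h)) := by
    intro h
    have h1 : Real.exp T ≤ Q (j h) := (le_max_right _ _).trans (hj h).2
    rw [Real.le_log_iff_exp_le (lt_of_lt_of_le (Real.exp_pos _) h1)]
    exact h1
  have hQ0 : ∀ h, 0 < Q (j h) := fun h => lt_of_lt_of_le (by linarith) (hQC h)
  have hlQ : ∀ h, 0 < Real.log (Q (j h)) := fun h => lt_of_lt_of_le (by linarith) (hQT h)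
  -- the common weight
  obtain ⟨L, hL0, hLρ⟩ : ∃ L : ℝ, 0 < L ∧ ∀ h, Real.log (Q (j h)) ≤ ρ * L := by
    refine ⟨(∑ h, Real.log (Q (j h))) / ρ, ?_, fun h => ?_⟩
    · refine div_pos (Finset.sum_pos (fun h _ => hlQ h) ⟨⟨0, hm⟩, Finset.mem_univ _⟩) hρ
    · rw [mul_div_cancel₀ _ hρ.ne']
      exact Finset.single_le_sum (f := fun h => Real.log (Q (j h))) (fun h _ => (hlQ h).le)
        (Finset.mem_univ h)
  obtain ⟨r, hr1, hrL, hrU⟩ : ∃ r : Fin m → ℕ, (∀ h, 1 ≤ r h) ∧
      (∀ h, L ≤ r h * Real.log (Q (j h))) ∧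
      (∀ h, r h * Real.log (Q (j h)) ≤ (1 + ρ) * L) := by
    refine ⟨fun h => ⌈L / Real.log (Q (j h))⌉₊, fun h => ?_, fun h => ?_, fun h => ?_⟩
    · exact Nat.ceil_pos.mpr (div_pos hL0 (hlQ h))
    · have := Nat.le_ceil (L / Real.log (Q (j h)))
      rwa [div_le_iff₀ (hlQ h)] at this
    · have h1 := (Nat.ceil_lt_add_one (div_pos hL0 (hlQ h)).le).le
      have h2 := mul_le_mul_of_nonneg_right h1 (hlQ h).le
      rw [add_mul, div_mul_cancel₀ _ (hlQ h).ne', one_mul] at h2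
      have h3 := hLρ h
      linarith
  have hr0 : ∀ h, (0 : ℝ) < r h := fun h => by exact_mod_cast hr1 h
  obtain ⟨P, hP0, hPMH, hPc, hPV⟩ := hC r (fun h => Q (j h)) L hr1 hL0
    (fun h => ⟨hQC h, hrL h, hrU h⟩)
  -- the grid
  have hgrid := hGRID m k r P a θ (fun h => g (j h)) hr1 hPMH hθ ha2
    (by
      intro J0 hJ0 u hu
      refine hPV J0 hJ0 (fun h i => ∑ t, (u h t : ℤ) * g (j h) t i) ?_
      intro v hv h i
      exact comb_leM hAV PP k hk hS v hv (A v) (g (j h)) i _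
        (Real.rpow_nonneg (hQ0 h).le _)
        (fun a => (hyp (j h) (hj h).1).2.2.2.1 v hv a i) a ha1 (u h) (hu h))
  -- the two coordinates
  have hht : ∀ h, ∃ i0 i1 : Fin (k + 1), i0 ≠ i1 ∧ l (j h) i0 ≠ 0 ∧
      (∀ i, |l (j h) i| ≤ |l (j h) i0|) ∧
      |l (j h) i0| ≤ (|l (j h) i0| / (Int.gcd (l (j h) i0) (l (j h) i1) : ℤ)) ^ k :=
    fun h => hHGT k (l (j h)) hk (hyp (j h) (hj h).1).2.1
  choose i0 i1 hi01 hli0 hmax hht2 using hht
  obtain ⟨f, hf0, hfd, hfc, hfi⟩ := hRED m (k + 1) r P (fun h => l (j h)) i0 i1 (θ / 2) hP0 hPMH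
    hi01 hli0
    (by
      intro J0 hJ0 x hx
      have h1 : ∀ h, ∃ u : Fin k → ℚ, ∑ t, u t • cv (g (j h) t) = x h := by
        intro h
        refine span_lemma k (fun t => cv (g (j h) t)) (hyp (j h) (hj h).1).1
          (fun i => (l (j h) i : ℚ)) ?_ ?_ (x h) (hx h)
        · intro h0
          apply hli0 h
          have := congrFun h0 (i0 h)
          simpa using this
        · intro t
          have := (hyp (j h) (hj h).1).2.2.1 t
          have h2 : ((∑ i, l (j h) i * g (j h) t i : ℤ) : ℚ) = 0 := by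
            rw [this]; simp
          push_cast at h2
          simpa [cv] using h2
      choose u hu using h1
      have h3 := hgrid J0 hJ0.le u
      have h4 : (bl fun h i => ∑ t, u h t * (g (j h) t i : ℚ)) = bl x := by
        funext hi
        simp only [bl]
        rw [← hu hi.1]
        simp [Finset.sum_apply, cv]
      rwa [h4] at h3)
  -- Roth's lemma
  choose p hq1 hpq hpq2 using fun h => lowest (l (j h) (i0 h)) (l (j h) (i1 h)) (hli0 h)
  set q : Fin m → ℤ := fun h => |l (j h) (i0 h)| / (Int.gcd (l (j h) (i0 h)) (l (j h) (i1 h)) : ℤ)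
    with hqdef
  set B : ℝ := Real.exp (L * τ / k) with hB
  have hωτ : 0 < ω * τ := mul_pos hω hτ
  obtain ⟨J, hJ1, hJ2⟩ := hR r p q B f hr1
    (by
      intro h h' hlt
      have h1 := hjj h h' hlt
      have h2 : (r h : ℝ) * ((1 + ρ) / ω * Real.log (Q (j h'))) ≤
          (1 + ρ) * (r h' * Real.log (Q (j h'))) :=
        (mul_le_mul_of_nonneg_left h1 (hr0 h).le).trans
          ((hrU h).trans (mul_le_mul_of_nonneg_left (hrL h') (by linarith)))
      have h3 : (r h : ℝ) * ((1 + ρ) / ω) ≤ (1 + ρ) * r h' := by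
        refine le_of_mul_le_mul_right ?_ (hlQ h')
        calc (r h : ℝ) * ((1 + ρ) / ω) * Real.log (Q (j h'))
            = (r h : ℝ) * ((1 + ρ) / ω * Real.log (Q (j h'))) := by ring
          _ ≤ _ := h2
          _ = _ := by ring
      rw [mul_div_assoc', div_le_iff₀ hω] at h3
      have h4 : (0 : ℝ) < 1 + ρ := by linarith
      nlinarith)
    (fun h => ⟨hq1 h, hpq h⟩)
    (by
      rw [hB]
      exact Real.one_lt_exp_iff.mpr (by positivity))
    (by
      intro h
      have hq1' : (1 : ℝ) ≤ (q h : ℝ) := by exact_mod_cast hq1 h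
      obtain ⟨i, hi⟩ := (hyp (j h) (hj h).1).2.2.2.2
      have h1 : Q (j h) ^ τ ≤ (q h : ℝ) ^ k := by
        have h2 : (|l (j h) i| : ℤ) ≤ q h ^ k := (hmax h i).trans (hht2 h)
        have h3 : (|(l (j h) i : ℝ)|) ≤ (q h : ℝ) ^ k := by exact_mod_cast h2
        exact hi.trans h3
      have h5 : τ * Real.log (Q (j h)) ≤ k * Real.log (q h) := by
        have := Real.log_le_log (Real.rpow_pos_of_pos (hQ0 h) τ) h1
        rwa [Real.log_rpow (hQ0 h), Real.log_pow] at this
      rw [hB, ← Real.exp_log (show (0 : ℝ) < q h by linarith), ← Real.exp_nat_mul]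
      rw [Real.exp_le_exp, div_le_iff₀ hk0]
      have h6 := mul_le_mul_of_nonneg_left h5 (hr0 h).le
      have h7 := mul_le_mul_of_nonneg_right (hrL h) hτ.le
      nlinarith)
    (by
      intro h
      rw [hB, ← Real.exp_mul, ← Real.exp_log (show (0 : ℝ) < 2 by norm_num), ← Real.exp_nat_mul,
        Real.exp_le_exp]
      have h1 : (r h : ℝ) * T ≤ (1 + ρ) * L :=
        (mul_le_mul_of_nonneg_left (hQT h) (hr0 h).le).trans (hrU h)
      have h2 : (r h : ℝ) * ((1 + ρ) * k * Real.log 2) ≤ (1 + ρ) * L * (ω * τ) :=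
        (mul_le_mul_of_nonneg_left hT2 (hr0 h).le).trans
          (by
            have := mul_le_mul_of_nonneg_right h1 hωτ.le
            nlinarith)
      have h3 : (0 : ℝ) < 1 + ρ := by linarith
      have h4 : (r h : ℝ) * (k * Real.log 2) ≤ L * (ω * τ) := by
        refine le_of_mul_le_mul_left ?_ h3
        nlinarith
      rw [div_mul_eq_mul_div, le_div_iff₀ hk0]
      nlinarith)
    hf0 hfd
    (by
      intro J
      have h0 : |((f.coeff J : ℤ) : ℝ)| ≤ C ^ (∑ h, r h) := by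
        by_cases hJ : f.coeff J = 0
        · rw [hJ]
          simp only [Int.cast_zero, abs_zero]
          positivity
        · obtain ⟨J', hJ'⟩ := hfc J hJ
          rw [hJ']
          exact hPc J'
      refine h0.trans ?_
      rw [hB, ← Real.exp_mul, ← Real.exp_log (show (0 : ℝ) < C by linarith), ← Real.exp_nat_mul,
        Real.exp_le_exp]
      rw [div_mul_eq_mul_div, le_div_iff₀ hk0]
      push_cast
      have h3 : (0 : ℝ) < 1 + ρ := by linarith
      have h1 : ∀ h, (r h : ℝ) * (m * k * Real.log C) ≤ L * (ω * τ) := by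
        intro h
        have h1 : (r h : ℝ) * T ≤ (1 + ρ) * L :=
          (mul_le_mul_of_nonneg_left (hQT h) (hr0 h).le).trans (hrU h)
        have h2 : (r h : ℝ) * (m * (1 + ρ) * k * Real.log C) ≤ (1 + ρ) * L * (ω * τ) :=
          (mul_le_mul_of_nonneg_left hT3 (hr0 h).le).trans
            (by
              have := mul_le_mul_of_nonneg_right h1 hωτ.le
              nlinarith)
        refine le_of_mul_le_mul_left ?_ h3
        nlinarith
      have h2 : (∑ h, (r h : ℝ)) * (m * k * Real.log C) ≤ m * (L * (ω * τ)) := by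
        rw [Finset.sum_mul]
        calc ∑ h, (r h : ℝ) * (m * k * Real.log C) ≤ ∑ _h : Fin m, L * (ω * τ) :=
              Finset.sum_le_sum fun h _ => h1 h
          _ = m * (L * (ω * τ)) := by simp
      have h5 : (∑ h, (r h : ℝ)) * (k * Real.log C) ≤ L * (ω * τ) := by
        refine le_of_mul_le_mul_left ?_ hm0
        calc (m : ℝ) * ((∑ h, (r h : ℝ)) * (k * Real.log C))
            = (∑ h, (r h : ℝ)) * (m * k * Real.log C) := by ring
          _ ≤ _ := h2
      calc (∑ h, (r h : ℝ)) * Real.log C * k = (∑ h, (r h : ℝ)) * (k * Real.log C) := by ring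
        _ ≤ L * (ω * τ) := h5
        _ = _ := by ring)
  have hα : (fun h => ((p h : ℤ) : ℚ) / ((q h : ℤ) : ℚ))
      = (fun h => -(l (j h) (i1 h) : ℚ) / l (j h) (i0 h)) := by
    funext h
    exact hpq2 h
  rw [hα] at hJ1
  exact absurd hJ2 (not_lt.mpr (hfi J hJ1))

end Pool.Agent.Helper27.SUBK
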