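import Pool.Agent.Helper77.SUBK.SheetP
import Pool.Agent.Helper27.SUB.THG

/-!
Project SUBK, row THGM: Theorem G over a number field (port of THG).
-/

set_option autoImplicit false

namespace Pool.Agent.Helper27.SUBK

open Finset Matrix Pool.Agent.Helper70.SUB Pool.Agent.Helper77.SUBK Pool.Agent.Helper27.SUB

theorem GSeqM_mono {K1 : Type} [Field K1] [NumberField K1] {S : Finset ℕ} {P : PF S K1} {N : ℕ}
    {A : Option ℕ → Matrix (Fin N) (Fin N) K1} {K a δ : ℝ}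
    {M M' : Set ℕ} {Q : ℕ → ℝ} {s : ℕ → Option ℕ → Fin N → ℝ} {μ ν : ℕ → ℝ}
    {h : ℕ → Fin N → ℤ} (H : GSeqM P N A K a δ M Q s μ ν h) (hsub : M' ⊆ M)
    (hinf : M'.Infinite) :
    GSeqM P N A K a δ M' Q s μ ν h :=
  ⟨hinf, H.lim, fun j hj => H.hyp j (hsub hj), fun j hj => H.sK j (hsub hj),
    fun j hj => H.lo j (hsub hj), fun j hj => H.up j (hsub hj), fun j hj => H.gap j (hsub hj)⟩

theorem THGM (hNDG : ST_NDGM) (hQUO : ST_QUOM) : ST_THGM := by
  intro K1 _ _ S P N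
  induction N with
  | zero =>
    intro A K a δ M Q s μ ν h hN
    omega
  | succ k ih =>
    intro A K a δ M Q s μ ν h hN hS hA hRt hK ha hδ H
    rcases Nat.eq_zero_or_pos k with hk | hk
    · subst hk
      have h1 : ∀ j ∈ M, h j 0 = 1 ∨ h j 0 = -1 := by
        intro j hj
        have h2 := (H.hyp j hj).prim (h j 0) (by
          intro i
          rw [Fin.fin_one_eq_zero i])
        exact Int.isUnit_iff.mp h2
      obtain ⟨c, hc⟩ := pigeon2 H.inf (fun j => h j 0) h1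
      refine ⟨fun _ => c, hc.mono ?_⟩
      rintro j ⟨hj, hjc⟩
      refine ⟨hj, ?_⟩
      funext i
      rw [Fin.fin_one_eq_zero i]
      exact hjc
    · obtain ⟨u, hu0, huinf⟩ := hNDG K1 S P k A K a δ M Q s μ ν h hk hS hA hRt hK ha hδ H
      have H1 := GSeqM_mono H (M' := {j | j ∈ M ∧ ∑ i, u i * h j i = 0}) (fun j hj => hj.1) huinf
      obtain ⟨A', K', a', δ', M', s', μ', ν', h', T, hA', hRt', hK', ha', hδ', hM', H', hT⟩ :=
        hQUO K1 S P k A K a δ _ Q s μ ν h u hk hS hA hRt hK ha hδ H1 hu0 (fun j hj => hj.2)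
      obtain ⟨h0, hh0⟩ := ih A' K' a' δ' M' Q s' μ' ν' h' hk hS hA' hRt' hK' ha' hδ' H'
      refine ⟨T.mulVec h0, hh0.mono ?_⟩
      rintro j ⟨hj, hjh⟩
      refine ⟨(hM' hj).1, ?_⟩
      rw [hT j hj, hjh]

end Pool.Agent.Helper27.SUBK
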